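import Pool.Agent.helper81.PJ.Spec

set_option autoImplicit false

open Finset

namespace Pool.Agent.PJ

open Pool.Agent.PY2

lemma CEL_count (N L j : ℕ) (hL : 1 ≤ L) (hN : 1 ≤ N) :
    (((2 * N * (j + 1) - 1) / L + 1 - (2 * N * j) / L : ℕ) : ℝ) ≤ 2 * N / L + 2 := by
  have hL' : (0 : ℝ) < L := by exact_mod_cast hL
  have h1 : 2 * N * j / L ≤ (2 * N * (j + 1) - 1) / L + 1 := by
    have : 2 * N * j / L ≤ (2 * N * (j + 1) - 1) / L := by
      apply Nat.div_le_div_right
      have : 2 * N * (j + 1) = 2 * N * j + 2 * N := by ring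
      omega
    omega
  rw [Nat.cast_sub h1]
  have h2 : (((2 * N * (j + 1) - 1) / L : ℕ) : ℝ) ≤ (2 * N * (j + 1)) / L := by
    have h3 := @Nat.cast_div_le ℝ _ _ _ (2 * N * (j + 1) - 1) L
    have h4 : ((2 * N * (j + 1) - 1 : ℕ) : ℝ) ≤ 2 * N * (j + 1) := by
      have : ((2 * N * (j + 1) - 1 : ℕ) : ℝ) ≤ ((2 * N * (j + 1) : ℕ) : ℝ) := by
        exact_mod_cast Nat.sub_le _ _
      push_cast at this ⊢
      exact this
    exact h3.trans (by gcongr)
  have h5 : (2 * N * j : ℝ) / L < ((2 * N * j / L : ℕ) : ℝ) + 1 := by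
    rw [div_lt_iff₀ hL']
    have h6 : 2 * N * j < (2 * N * j / L + 1) * L := by
      have h7 := Nat.div_add_mod (2 * N * j) L
      have h8 := Nat.mod_lt (2 * N * j) hL
      have h9 : (2 * N * j / L + 1) * L = L * (2 * N * j / L) + L := by ring
      omega
    have h9 : ((2 * N * j : ℕ) : ℝ) < (((2 * N * j / L + 1) * L : ℕ) : ℝ) := by exact_mod_cast h6
    push_cast at h9
    linarith
  push_cast
  have h7 : (2 * (N : ℝ) * ((j : ℝ) + 1)) / L = 2 * N * j / L + 2 * N / L := by
    field_simp
  rw [h7] at h2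
  linarith

theorem CEL : CEL_stmt := by
  intro p _ N L E B hL hN hE j
  have hE0 : 0 ≤ E := le_trans (Nat.cast_nonneg _) (hE 0)
  have hmaps : ∀ b ∈ (B.filter fun b => b.val / (2 * N) = j),
      b.val / L ∈ Ico ((2 * N * j) / L) ((2 * N * (j + 1) - 1) / L + 1) := by
    intro b hb
    rw [mem_filter] at hb
    have h1 := hb.2
    have h2 : 2 * N * j ≤ b.val := by
      rw [← h1]; exact Nat.mul_div_le _ _
    have h3 : b.val < 2 * N * (j + 1) := by
      have h4 := Nat.div_add_mod b.val (2 * N)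
      have h5 := Nat.mod_lt b.val (show 2 * N > 0 by omega)
      rw [h1] at h4
      have h6 : 2 * N * (j + 1) = 2 * N * j + 2 * N := by ring
      omega
    rw [mem_Ico]
    refine ⟨Nat.div_le_div_right h2, ?_⟩
    have h7 : b.val / L ≤ (2 * N * (j + 1) - 1) / L := Nat.div_le_div_right (by omega)
    omega
  rw [card_eq_sum_card_fiberwise (f := fun b : ZMod p => b.val / L) (t := Ico ((2 * N * j) / L) ((2 * N * (j + 1) - 1) / L + 1)) (by
    intro b hb
    have := hmaps b (by simpa using hb)
    simpa using this)]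
  push_cast
  calc ∑ i ∈ Ico ((2 * N * j) / L) ((2 * N * (j + 1) - 1) / L + 1),
        (((B.filter fun b => b.val / (2 * N) = j).filter fun b => b.val / L = i).card : ℝ)
      ≤ ∑ i ∈ Ico ((2 * N * j) / L) ((2 * N * (j + 1) - 1) / L + 1), E := by
        apply sum_le_sum
        intro i _
        refine le_trans ?_ (hE i)
        have : ((B.filter fun b => b.val / (2 * N) = j).filter fun b => b.val / L = i).card ≤
            (cl B L i).card := by
          apply card_le_card
          intro b hb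
          rw [mem_filter, mem_filter] at hb
          unfold cl
          rw [mem_filter]
          exact ⟨hb.1.1, hb.2⟩
        exact_mod_cast this
    _ = (((2 * N * (j + 1) - 1) / L + 1 - (2 * N * j) / L : ℕ) : ℝ) * E := by
        rw [sum_const, Nat.card_Ico, nsmul_eq_mul]
    _ ≤ (2 * N / L + 2) * E := by
        apply mul_le_mul_of_nonneg_right (CEL_count N L j hL hN) hE0

end Pool.Agent.PJ
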